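import Mathlib
import Pool.Agent.H.MP_df8e9b_al.A

set_option autoImplicit false

namespace Pool.Agent.Results.MP_60863d_al.Yes

open Pool.Agent.H.MP_df8e9b_al Classical Filter Topology Real

theorem result (G A : Type) [Group G] [AddCommGroup A] [DistribMulAction G A] (_hG : (Fol G).NeBot)
    (H : Subgroup G) (hH : Infinite (G ⧸ H)) (h : hAlg H A < ⊤) : hAlg G A = 0 := by
  refine le_antisymm (iSup₂_le fun X _ => (Hm G X).trans ?_) zero_le
  have x0 := Finset.mem_insert_self 0 X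
  generalize insert 0 X = X at x0
  obtain ⟨r, r0, hr⟩ : ∃ r : ℝ, 0 ≤ r ∧ hAlg H A < .ofReal r := by
    obtain ⟨r, b, a, -⟩ := ENNReal.lt_iff_exists_real_btwn.1 h
    exact ⟨r, b, a⟩
  have k : ∀ p ∈ Set.Ioc (0 : ℝ) 1, Hx G X ≤ .ofReal (p * r) := fun p ⟨p0, p1⟩ => by
    have t := ENNReal.tendsto_ofReal (((tendsto_pow_atTop_nhds_zero_of_lt_one (sub_nonneg.2 p1)
      (sub_lt_self 1 p0)).const_mul (log X.card)).const_add (p * r))
    rw [mul_zero, add_zero] at t
    refine ge_of_tendsto' t fun n => ?_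
    obtain ⟨C, c⟩ := Infinite.exists_subset_card_eq (G ⧸ H) n
    have i : Function.Injective fun c : G ⧸ H => c.out⁻¹ := inv_injective.comp Quotient.out_injective
    rw [← c, ← Finset.card_image_of_injective C i]
    refine core H x0 _ ?_ p0.le p1 r0 (lt_of_le_of_lt (le_iSup₂_of_le (f := fun (X : Finset A)
      (_ : X.Nonempty) => Hx H X) _ ⟨0, T0 x0 _⟩ le_rfl) hr)
    simp only [Finset.coe_image]
    rintro _ ⟨a, -, rfl⟩ _ ⟨b, -, rfl⟩ e
    simpa using e
  have t := ENNReal.tendsto_ofReal (((tendsto_id (x := 𝓝[>] (0 : ℝ))).mono_right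
    nhdsWithin_le_nhds).mul_const r)
  simp only [zero_mul, ENNReal.ofReal_zero] at t
  exact ge_of_tendsto t (mem_of_superset (Ioc_mem_nhdsGT one_pos) k)

end Pool.Agent.Results.MP_60863d_al.Yes
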